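import Mathlib

set_option autoImplicit false

namespace Pool.Agent.Results.MP_93dabc_an.NoSelector

open Set MeasureTheory Cardinal

/-- the first uncountable ordinal as a type -/
def W : Type := (Cardinal.aleph 1).ord.ToType

noncomputable instance : LinearOrder W := inferInstanceAs (LinearOrder (Cardinal.aleph 1).ord.ToType)

lemma Iic_countable (t : W) : (Iic t).Countable := by
  have h : #(Iio t) < Cardinal.aleph 1 := Cardinal.mk_Iio_toType_ord_lt (c := Cardinal.aleph 1) t
  rw [← Cardinal.countable_iff_lt_aleph_one] at h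
  rw [← Iio_insert]
  exact h.insert t

lemma univ_unc : ¬ (univ : Set W).Countable := by
  rw [Cardinal.countable_iff_lt_aleph_one, Cardinal.mk_univ]
  exact not_lt.mpr (Cardinal.mk_ord_toType _).ge

lemma exists_gt_of_countable {C : Set W} (hC : C.Countable) : ∃ u, ∀ s ∈ C, s < u := by
  by_contra h
  push Not at h
  refine univ_unc ((hC.biUnion fun s _ => Iic_countable s).mono fun u _ => ?_)
  obtain ⟨s, hs, hu⟩ := h u
  exact mem_biUnion hs hu

instance : MeasurableSpace W where
  MeasurableSet' s := s.Countable ∨ sᶜ.Countable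
  measurableSet_empty := Or.inl countable_empty
  measurableSet_compl s h := by rw [compl_compl]; exact h.symm
  measurableSet_iUnion f h := by
    by_cases hc : ∀ i, (f i).Countable
    · exact Or.inl (countable_iUnion hc)
    · push Not at hc
      obtain ⟨i, hi⟩ := hc
      exact Or.inr (((h i).resolve_left hi).mono (compl_subset_compl.mpr (subset_iUnion f i)))

lemma meas_iff (s : Set W) : MeasurableSet s ↔ s.Countable ∨ sᶜ.Countable := Iff.rfl

open Classical in
noncomputable def mu : Measure W :=
  Measure.ofMeasurable (fun s _ => if s.Countable then 0 else 1) (by simp) (by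
    intro f h hd
    by_cases hc : ∀ i, (f i).Countable
    · simp [hc, countable_iUnion hc]
    · push Not at hc
      obtain ⟨i, hi⟩ := hc
      rw [if_neg (fun hu => hi (hu.mono (subset_iUnion f i))), tsum_eq_single i, if_neg hi]
      intro j hj
      exact if_pos (((h i).resolve_left hi).mono (hd hj).subset_compl_right))

open Classical in
lemma mu_apply (s : Set W) (hs : MeasurableSet s) : mu s = if s.Countable then 0 else 1 :=
  Measure.ofMeasurable_apply s hs

instance : IsProbabilityMeasure mu := ⟨by rw [mu_apply _ MeasurableSet.univ, if_neg univ_unc]⟩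

lemma mu_complete : mu.IsComplete := ⟨fun s hs => by
  obtain ⟨t, hst, ht, h0⟩ := exists_measurable_superset_of_null hs
  rw [mu_apply t ht] at h0
  by_cases hc : t.Countable
  · exact Or.inl (hc.mono hst)
  · simp [hc] at h0⟩

abbrev L : Type := lp (fun _ : W => ℝ) 1

lemma summ (x : L) : Summable fun s => ‖x s‖ := by simpa using x.2.summable

/-- sum of the coordinates in `U` -/
noncomputable def ind (U : Set W) : L →L[ℝ] ℝ :=
  LinearMap.mkContinuous
    { toFun := fun x => ∑' s, U.indicator x s
      map_add' := fun x y => by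
        rw [← ((summ x).of_norm.indicator U).tsum_add ((summ y).of_norm.indicator U)]
        refine tsum_congr fun s => ?_
        by_cases h : s ∈ U
        · simp only [Set.indicator_of_mem h, lp.coeFn_add, Pi.add_apply]
        · simp only [Set.indicator_of_notMem h, add_zero]
      map_smul' := fun a x => by
        rw [RingHom.id_apply, smul_eq_mul, ← tsum_mul_left]
        refine tsum_congr fun s => ?_
        by_cases h : s ∈ U <;> simp [h] }
    1 (fun x => by
      have h1 : ∀ s, ‖U.indicator x s‖ ≤ ‖x s‖ := fun s => norm_indicator_le_norm_self _ _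
      have h2 := tsum_of_norm_bounded (summ x).hasSum h1
      have h3 : ‖x‖ = ∑' s, ‖x s‖ := by simpa using lp.norm_eq_tsum_rpow (p := 1) (by simp) x
      rw [one_mul, h3]
      exact h2)

lemma ind_apply (U : Set W) (x : L) : ind U x = ∑' s, U.indicator x s := rfl

/-- the multi-function -/
def F (t : W) : Set L := {x | ‖x‖ ≤ 1 ∧ ind univ x = 1 ∧ ∀ s, s < t → x s = 0}

lemma F_nonempty (t : W) : (F t).Nonempty := by
  classical
  refine ⟨lp.single 1 t 1, by simp, ?_, fun s hs => lp.single_apply_ne _ _ _ hs.ne⟩
  rw [ind_apply, tsum_eq_single t]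
  · simp
  · intro s hs
    rw [indicator_univ]
    exact lp.single_apply_ne _ _ _ hs

lemma F_convex (t : W) : Convex ℝ (F t) := by
  rintro x ⟨h1, h2, h3⟩ y ⟨k1, k2, k3⟩ a b ha hb hab
  refine ⟨?_, ?_, fun s hs => by
    change a * x s + b * y s = 0
    rw [h3 s hs, k3 s hs]; simp⟩
  · refine (norm_add_le _ _).trans ?_
    rw [norm_smul, norm_smul, Real.norm_of_nonneg ha, Real.norm_of_nonneg hb]
    nlinarith
  · rw [map_add, map_smul, map_smul, h2, k2]; simpa using hab

lemma F_closed (t : W) : IsClosed (F t) := by
  have e : F t = {x : L | ‖x‖ ≤ 1} ∩ ({x | ind univ x = 1} ∩ ⋂ s, ⋂ (_ : s < t), {x | x s = 0}) := by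
    ext x; simp [F]
  rw [e]
  refine (isClosed_le continuous_norm continuous_const).inter
    ((isClosed_eq (ind univ).continuous continuous_const).inter
      (isClosed_iInter fun s => isClosed_iInter fun _ => isClosed_eq ?_ continuous_const))
  exact (lp.evalCLM ℝ (fun _ : W => ℝ) 1 s).continuous

lemma F_meas (G : Set L) : MeasurableSet {t | (F t ∩ G).Nonempty} := by
  by_cases h : ∀ t, (F t ∩ G).Nonempty
  · exact Or.inr (countable_empty.mono fun t ht => ht (h t))
  · push Not at h
    obtain ⟨t0, h0⟩ := h
    refine Or.inl ((Iic_countable t0).mono fun t ht => ?_)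
    obtain ⟨x, ⟨h1, h2, h3⟩, hx⟩ := ht
    by_contra hc
    have : x ∈ F t0 ∩ G := ⟨⟨h1, h2, fun s hs => h3 s (hs.trans (not_le.mp hc))⟩, hx⟩
    rw [h0] at this
    exact this

lemma no_sel (f : W → L) (hf : ∀ t, f t ∈ F t) : ∃ φ : L →L[ℝ] ℝ, ¬ Measurable (φ ∘ f) := by
  obtain ⟨T, hT⟩ := zorn_subset
    {T : Set W | T.Pairwise fun s t => Disjoint (Function.support (f s)) (Function.support (f t))}
    (fun c hc hch => ⟨⋃₀ c, by
      rintro s ⟨A, hA, hs⟩ t ⟨B, hB, ht⟩ hst
      rcases hch.total hA hB with h | h
      · exact hc hB (h hs) ht hst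
      · exact hc hA hs (h ht) hst, fun A hA => subset_sUnion_of_mem hA⟩)
  have hTu : ¬ T.Countable := by
    intro hc
    obtain ⟨u, hu⟩ := exists_gt_of_countable
      (hc.union (hc.biUnion fun t _ => (summ (f t)).of_norm.countable_support))
    have hd : ∀ t ∈ T, Disjoint (Function.support (f u)) (Function.support (f t)) := fun t ht =>
      Set.disjoint_left.mpr fun s h1 h2 => h1 ((hf u).2.2 s (hu s (Or.inr (mem_biUnion ht h2))))
    have hins : (insert u T).Pairwise
        fun s t => Disjoint (Function.support (f s)) (Function.support (f t)) :=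
      Set.Pairwise.insert hT.prop fun t ht _ => ⟨hd t ht, (hd t ht).symm⟩
    have := hT.mem_of_prop_insert hins
    exact lt_irrefl _ (hu u (Or.inl this))
  have hinf : ℵ₀ ≤ #T := by
    by_contra h
    exact hTu (Cardinal.le_aleph0_iff_set_countable.mp (not_le.mp h).le)
  obtain ⟨e⟩ : Nonempty (T ⊕ T ≃ T) := by
    rw [← Cardinal.eq]
    simp [Cardinal.add_eq_self hinf]
  let A : Set W := range fun t : T => (e (Sum.inl t) : W)
  let B : Set W := range fun t : T => (e (Sum.inr t) : W)
  have hA : ¬ A.Countable := fun h => hTu (by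
    have := h.preimage_of_injOn (f := fun t : T => (e (Sum.inl t) : W))
      (Subtype.val_injective.comp (e.injective.comp Sum.inl_injective)).injOn
    rw [preimage_range, Set.countable_univ_iff] at this
    exact Set.countable_coe_iff.mp this)
  have hB : ¬ B.Countable := fun h => hTu (by
    have := h.preimage_of_injOn (f := fun t : T => (e (Sum.inr t) : W))
      (Subtype.val_injective.comp (e.injective.comp Sum.inr_injective)).injOn
    rw [preimage_range, Set.countable_univ_iff] at this
    exact Set.countable_coe_iff.mp this)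
  let U : Set W := ⋃ t ∈ A, Function.support (f t)
  refine ⟨ind U, fun hm => ?_⟩
  rcases (meas_iff _).mp (hm (measurableSet_singleton (1 : ℝ))) with h | h
  · refine hA (h.mono fun t ht => ?_)
    change ind U (f t) = 1
    rw [← (hf t).2.1, ind_apply, ind_apply, indicator_univ,
      indicator_eq_self.mpr (subset_biUnion_of_mem (u := fun t => Function.support (f t)) ht)]
  · refine hB (h.mono ?_)
    rintro _ ⟨t, rfl⟩
    change ¬ ind U (f (e (Sum.inr t))) = 1
    have : U.indicator (f (e (Sum.inr t))) = 0 := by
      rw [indicator_eq_zero', Set.disjoint_left]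
      intro s hs hU
      simp only [U, mem_iUnion] at hU
      obtain ⟨_, ⟨t', rfl⟩, h2⟩ := hU
      refine Set.disjoint_left.mp (hT.prop (e (Sum.inr t)).2 (e (Sum.inl t')).2 ?_) hs h2
      intro h
      exact Sum.inr_ne_inl (e.injective (Subtype.ext h))
    rw [ind_apply, this]
    simp

/-- A scalarly measurable multi-function with nonempty bounded closed convex values on a complete
probability space that has no scalarly measurable selector. -/
theorem result : ∃ (Ω : Type) (_ : MeasurableSpace Ω) (μ : Measure Ω),
    IsProbabilityMeasure μ ∧ μ.IsComplete ∧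
    ∃ (X : Type) (_ : NormedAddCommGroup X) (_ : NormedSpace ℝ X), CompleteSpace X ∧
      ∃ F : Ω → Set X,
        (∀ t, (F t).Nonempty ∧ Convex ℝ (F t) ∧ IsClosed (F t) ∧ F t ⊆ Metric.closedBall 0 1) ∧
        (∀ (φ : X →L[ℝ] ℝ) (a : ℝ), φ ≠ 0 → MeasurableSet {t | (F t ∩ {x | a < φ x}).Nonempty}) ∧
        ∀ f : Ω → X, (∀ t, f t ∈ F t) → ¬ ∀ φ : X →L[ℝ] ℝ, Measurable (φ ∘ f) := by
  refine ⟨W, inferInstance, mu, inferInstance, mu_complete, L, inferInstance, inferInstance,
    inferInstance, F, fun t => ⟨F_nonempty t, F_convex t, F_closed t,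
      fun x hx => mem_closedBall_zero_iff.mpr hx.1⟩, fun φ a _ => F_meas _, fun f hf h => ?_⟩
  obtain ⟨φ, hφ⟩ := no_sel f hf
  exact hφ (h φ)

end Pool.Agent.Results.MP_93dabc_an.NoSelector
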